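import Pool.Agent.Lib.MP_43d240_ag.FZ.Iface

/-!
# PI, frozen side, chapter F2b: modules GPA and IND
-/

set_option autoImplicit false

namespace Pool.Agent.PI.FZ.H39

open MvPolynomial Pool.Agent.PI.FZ

theorem eval_dh {k : Type} [Field k] (a : Fin 4) (P : Fin 3 → k) (f : MvPolynomial (Fin 4) k) :
    eval P (dh a f) = eval (a.insertNth (1 : k) P) f := by
  induction f using MvPolynomial.induction_on with
  | C c => simp [dh]
  | add p q hp hq => rw [map_add, map_add, map_add, hp, hq]
  | mul_X p i hp =>
    rw [map_mul, map_mul, map_mul, hp]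
    congr 1
    rw [dh, aeval_X, eval_X]
    induction i using Fin.succAboveCases a with
    | x => rw [Fin.insertNth_apply_same, Fin.insertNth_apply_same, map_one]
    | p b => rw [Fin.insertNth_apply_succAbove, Fin.insertNth_apply_succAbove, eval_X]

theorem pderiv_dh {k : Type} [Field k] (a : Fin 4) (b : Fin 3) (f : MvPolynomial (Fin 4) k) :
    pderiv b (dh a f) = dh a (pderiv (a.succAbove b) f) := by
  classical
  induction f using MvPolynomial.induction_on with
  | C c => simp [dh]
  | add p q hp hq => rw [map_add, map_add, map_add, map_add, hp, hq]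
  | mul_X p i hp =>
    have h : pderiv b (dh a (X i : MvPolynomial (Fin 4) k)) =
        dh a (pderiv (a.succAbove b) (X i)) := by
      rw [dh, aeval_X]
      induction i using Fin.succAboveCases a with
      | x =>
        have e : pderiv (a.succAbove b) (X a : MvPolynomial (Fin 4) k) = 0 :=
          pderiv_X_of_ne (Fin.succAbove_ne a b).symm
        rw [Fin.insertNth_apply_same, e, map_zero]
        simp
      | p c =>
        rw [Fin.insertNth_apply_succAbove]
        by_cases hbc : c = b
        · subst hbc
          rw [pderiv_X_self, pderiv_X_self, map_one]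
        · have e1 : pderiv b (X c : MvPolynomial (Fin 3) k) = 0 := pderiv_X_of_ne hbc
          have e2 : pderiv (a.succAbove b) (X (a.succAbove c) : MvPolynomial (Fin 4) k) = 0 :=
            pderiv_X_of_ne (fun h => hbc (Fin.succAbove_right_injective h))
          rw [e1, e2, map_zero]
    rw [map_mul, Derivation.leibniz, Derivation.leibniz, map_add, smul_eq_mul, smul_eq_mul,
      smul_eq_mul, smul_eq_mul, map_mul, map_mul, h, hp]

/-- GPA. Dehomogenisation keeps general position (Euler's relation). -/
theorem gpa : GPA_S := by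
  intro k ι _ d _ f hf hg a P
  set P' : Fin 4 → k := a.insertNth (1 : k) P with hP'
  have hP0 : P' ≠ 0 := by
    intro h
    have h1 := congrFun h a
    rw [hP', Fin.insertNth_apply_same] at h1
    exact one_ne_zero h1
  have hlin := hg P' hP0
  have he : ∀ i, eval P (dh a (f i)) = 0 ↔ eval P' (f i) = 0 := fun i => by rw [eval_dh]
  have hlin2 := hlin.comp (fun i : {i : ι // eval P (dh a (f i)) = 0} =>
    (⟨i.1, (he i.1).1 i.2⟩ : {i : ι // eval P' (f i) = 0})) (by
      intro i i' h
      have h' := congrArg (fun z => z.1) h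
      exact Subtype.ext h')
  rw [linearIndependent_iff'] at hlin2 ⊢
  intro s c hc
  apply hlin2 s c
  have h1 : ∀ b : Fin 3, ∑ i ∈ s, c i * eval P' (pderiv (a.succAbove b) (f i.1)) = 0 := by
    intro b
    have h2 := congrFun hc b
    rw [Finset.sum_apply] at h2
    simp only [Pi.smul_apply, smul_eq_mul, Pi.zero_apply] at h2
    refine Eq.trans (Finset.sum_congr rfl fun i _ => ?_) h2
    rw [pderiv_dh, eval_dh]
  funext v
  rw [Finset.sum_apply]
  simp only [Function.comp_apply, Pi.smul_apply, smul_eq_mul, Pi.zero_apply]
  induction v using Fin.succAboveCases a with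
  | p b => exact h1 b
  | x =>
    have h3 : ∀ i ∈ s, c i * eval P' (pderiv a (f i.1)) =
        - ∑ b, P b * (c i * eval P' (pderiv (a.succAbove b) (f i.1))) := by
      intro i _
      have h4 := congrArg (eval P') (hf i.1).sum_X_mul_pderiv
      rw [map_sum, Fin.sum_univ_succAbove _ a, map_nsmul, (he i.1).1 i.2, smul_zero, map_mul,
        eval_X, hP', Fin.insertNth_apply_same, one_mul] at h4
      have h5 : eval P' (pderiv a (f i.1)) =
          - ∑ b, P b * eval P' (pderiv (a.succAbove b) (f i.1)) := by
        rw [eq_neg_iff_add_eq_zero]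
        refine Eq.trans ?_ h4
        congr 1
        refine Finset.sum_congr rfl fun b _ => ?_
        rw [map_mul, eval_X, Fin.insertNth_apply_succAbove]
      rw [h5, mul_neg, Finset.mul_sum]
      congr 1
      exact Finset.sum_congr rfl fun b _ => by ring
    rw [Finset.sum_congr rfl h3, Finset.sum_neg_distrib, Finset.sum_comm, neg_eq_zero]
    refine Finset.sum_eq_zero fun b _ => ?_
    rw [← Finset.mul_sum, h1 b, mul_zero]

/-- IND. Independence of the affine coordinates of every chart. -/
theorem ind : IND_S := by
  classical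
  intro k L _ _ _ x h0 hx a
  have hxa : x a ≠ 0 := by
    induction a using Fin.cases with
    | zero => rw [h0]; exact one_ne_zero
    | succ b => exact hx.ne_zero b
  rw [algebraicIndependent_iff]
  intro p hp
  set N := p.totalDegree with hN
  have hdeg : ∀ m ∈ p.support, ∑ b, m b ≤ N := by
    intro m hm
    have h1 := le_totalDegree hm
    rwa [Finsupp.sum_fintype _ _ (fun _ => rfl)] at h1
  let M : (Fin 3 →₀ ℕ) → Fin 4 → ℕ := fun m => a.insertNth (N - ∑ b, m b) (m : Fin 3 → ℕ)
  let φ : (Fin 3 →₀ ℕ) → (Fin 3 →₀ ℕ) := fun m => Finsupp.equivFunOnFinite.symm fun i => M m i.succ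
  have hsum : ∀ m ∈ p.support, ∑ v, M m v = N := by
    intro m hm
    rw [Fin.sum_univ_succAbove _ a]
    simp only [M, Fin.insertNth_apply_same, Fin.insertNth_apply_succAbove]
    have := hdeg m hm
    omega
  have hinj : ∀ m ∈ p.support, ∀ m' ∈ p.support, φ m = φ m' → m = m' := by
    intro m hm m' hm' h
    have h1 : ∀ i : Fin 3, M m i.succ = M m' i.succ := fun i => DFunLike.congr_fun h i
    have h2 : M m 0 = M m' 0 := by
      have e1 := hsum m hm
      have e2 := hsum m' hm'
      rw [Fin.sum_univ_succ] at e1 e2
      rw [Finset.sum_congr rfl fun i _ => h1 i] at e1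
      omega
    ext b
    have h3 : M m (a.succAbove b) = M m' (a.succAbove b) := by
      generalize a.succAbove b = v
      induction v using Fin.cases with
      | zero => exact h2
      | succ i => exact h1 i
    simpa only [M, Fin.insertNth_apply_succAbove] using h3
  set q : MvPolynomial (Fin 3) k := ∑ m ∈ p.support, monomial (φ m) (coeff m p) with hq
  have h1 : aeval (fun b : Fin 3 => x b.succ) q =
      x a ^ N * aeval (fun b : Fin 3 => x (a.succAbove b) / x a) p := by
    conv_rhs => rw [p.as_sum]
    rw [hq, map_sum, map_sum, Finset.mul_sum]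
    refine Finset.sum_congr rfl fun m hm => ?_
    rw [aeval_monomial, aeval_monomial, Finsupp.prod_fintype _ _ (fun _ => pow_zero _),
      Finsupp.prod_fintype _ _ (fun _ => pow_zero _)]
    have e1 : ∏ v : Fin 4, x v ^ M m v = ∏ i : Fin 3, x i.succ ^ (φ m) i := by
      rw [Fin.prod_univ_succ, h0, one_pow, one_mul]
      rfl
    have e2 : ∏ v : Fin 4, x v ^ M m v =
        x a ^ N * ∏ b : Fin 3, (x (a.succAbove b) / x a) ^ m b := by
      rw [Fin.prod_univ_succAbove _ a]
      simp only [M, Fin.insertNth_apply_same, Fin.insertNth_apply_succAbove, div_pow]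
      rw [Finset.prod_div_distrib, Finset.prod_pow_eq_pow_sum]
      have h2 : x a ^ N = x a ^ (N - ∑ b, m b) * x a ^ (∑ b, m b) := by
        rw [← pow_add, Nat.sub_add_cancel (hdeg m hm)]
      rw [h2]
      field_simp
    rw [← e1, e2]
    ring
  have h2 : q = 0 := (algebraicIndependent_iff.1 hx) q (by rw [h1, hp, mul_zero])
  ext m
  rw [coeff_zero]
  by_contra hm
  have hm' : m ∈ p.support := mem_support_iff.2 hm
  have h3 : coeff (φ m) q = coeff m p := by
    rw [hq, coeff_sum]
    rw [Finset.sum_eq_single m]
    · rw [coeff_monomial, if_pos rfl]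
    · intro m' h' hne
      rw [coeff_monomial, if_neg fun h => hne (hinj _ h' _ hm' h)]
    · exact fun h => absurd hm' h
  rw [h2, coeff_zero] at h3
  exact hm h3.symm

end Pool.Agent.PI.FZ.H39
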