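import Pool.Agent.Lib.MP_43d240_ag.FZ.Iface

/-!
# PI, frozen side, chapter F2b: modules NUL and UNI
-/

set_option autoImplicit false

namespace Pool.Agent.PI.FZ.H39

open MvPolynomial Pool.Agent.PI.FZ

/-- NUL. The members of one block generate the unit ideal. -/
theorem nul : NUL_S := by
  intro k J Λ _ _ _ hΛ g hg j
  by_contra hne
  have h1 : Ideal.span (Set.range (g j)) ≠ ⊤ := by
    intro h
    apply hne
    have h2 : (1 : MvPolynomial (Fin 3) k) ∈ Ideal.span (Set.range (g j)) := by
      rw [h]; exact Submodule.mem_top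
    obtain ⟨c, hc⟩ := Ideal.mem_span_range_iff_exists_fun.1 h2
    exact ⟨c, hc⟩
  obtain ⟨I, hI, hle⟩ := Ideal.exists_le_maximal _ h1
  obtain ⟨P, rfl⟩ := eq_vanishingIdeal_singleton_of_isMaximal k hI
  have h3 : ∀ l, eval P (g j l) = 0 := by
    intro l
    have h4 : g j l ∈ vanishingIdeal k {P} := hle (Ideal.subset_span ⟨l, rfl⟩)
    rw [mem_vanishingIdeal_singleton_iff] at h4
    rwa [aeval_eq_eval] at h4
  have h5 := (hg P).comp (fun l : Λ => (⟨(j, l), h3 l⟩ :
    {i : J × Λ // eval P (g i.1 i.2) = 0})) (by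
      intro l l' h
      have := congrArg Subtype.val h
      exact (Prod.ext_iff.1 this).2)
  have h6 := h5.fintype_card_le_finrank
  rw [Module.finrank_fintype_fun_eq_card, Fintype.card_fin] at h6
  omega

/-- UNI. `g_(j, lam j)(x)` is invertible in the chart algebra. -/
theorem uni : UNI_S := by
  classical
  intro k L J Λ _ _ _ _ _ hΛ x g lam r hC j
  have hmem : ∀ p : MvPolynomial (Fin 3) k, aeval x p ∈ chartAlg k x r := by
    intro p
    have h1 : aeval x p ∈ Algebra.adjoin k (Set.range x) := by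
      rw [Algebra.adjoin_range_eq_range_aeval]
      exact ⟨p, rfl⟩
    exact Algebra.adjoin_mono Set.subset_union_left h1
  have hr : ∀ l, r j l ∈ chartAlg k x r := fun l =>
    Algebra.subset_adjoin (Or.inr ⟨(j, l), rfl⟩)
  have hne : aeval x (g j (lam j)) ≠ 0 := by
    intro h
    have h1 : g j (lam j) = 0 := (algebraicIndependent_iff.1 hC.alg) _ h
    have h2 := hC.nsq {(j, lam j)} (Finset.singleton_nonempty _) 0 1 one_ne_zero
    rw [Finset.prod_singleton, h1] at h2
    exact h2 (by simp)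
  refine ⟨hne, hmem _, ?_⟩
  obtain ⟨c, hc⟩ := nul k J Λ hΛ g hC.gp j
  have h1 : aeval x (g j (lam j)) * ∑ l, aeval x (c l) * r j l ^ 2 = 1 := by
    have h2 := congrArg (aeval x) hc
    rw [map_sum, map_one] at h2
    rw [← h2, Finset.mul_sum]
    refine Finset.sum_congr rfl fun l _ => ?_
    rw [map_mul, ← hC.sq j l]
    ring
  rw [inv_eq_of_mul_eq_one_right h1]
  exact Subalgebra.sum_mem _ fun l _ => Subalgebra.mul_mem _ (hmem _) (Subalgebra.pow_mem _ (hr l) 2)

end Pool.Agent.PI.FZ.H39
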